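import Mathlib
import Pool.Agent.V11238.Om.Mach

/-!
# MP_f476d2_lc, Q1 (positive answer)

If `U` is a prefix-free machine that is universal by adjunction and `X` is a co-c.e. set of strings
with `Ω_U[X] > 0`, then `Ω_U[X]` is Martin-Löf random.
-/

set_option autoImplicit false

namespace Pool.Agent.Results.MP_f476d2_lc.CoCeRandom

open Pool.Agent.H561R3.Om

/-- If `U` is universal by adjunction and `X` is co-c.e. with `Ω_U[X] > 0`, then `Ω_U[X]` is
Martin-Löf random. -/
theorem result (U : List Bool →. List Bool) (X : Set (List Bool))
    (hU : UniversalByAdjunction U) (hX : REPred fun x : List Bool => x ∉ X)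
    (hpos : 0 < Omega U X) : MLRandomReal (Omega U X) :=
  Pool.Agent.V11238.Om.omega_random U X hU hX hpos

end Pool.Agent.Results.MP_f476d2_lc.CoCeRandom
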